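import Mathlib

/-!
Commutative semigroups `S` in which some power `a` of every element is regular (`a a y = a` for
some `y`): for instance all periodic and all finite ones. For these `End(S)` with the pointwise
product is cancellative if and only if `S` is a group.
-/

set_option autoImplicit false

namespace Pool.Agent.Results.MP_4b0123_al.PiRegular

/-- `pw x n = x^(n+1)` -/
def pw {S : Type*} [CommSemigroup S] (x : S) : ℕ → S
  | 0 => x
  | n + 1 => pw x n * x

/-- some power of every element is regular: for each `x` there are `n` and `y` with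
`x^(n+1) x^(n+1) y = x^(n+1)` -/
def IsPiRegular (S : Type*) [CommSemigroup S] : Prop :=
  ∀ x : S, ∃ (n : ℕ) (y : S), pw x n * pw x n * y = pw x n

/-- `End(S)`, the endomorphisms of `S` with the pointwise product, is cancellative -/
def EndCancellative (S : Type*) [CommSemigroup S] : Prop :=
  ∀ f g h : S →ₙ* S, (∀ x, f x * g x = f x * h x) → g = h

/-- `S` is a group -/
def IsGrp (S : Type*) [CommSemigroup S] : Prop :=
  ∃ e : S, (∀ x, e * x = x) ∧ ∀ x, ∃ y, y * x = e

lemma idem_is_one {S : Type*} [CommSemigroup S] (h : EndCancellative S) (e : S) (he : e * e = e)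
    (x : S) : e * x = x := by
  let c : S →ₙ* S := ⟨fun _ => e, fun _ _ => he.symm⟩
  let m : S →ₙ* S := ⟨fun x => e * x, fun x y => by
    rw [mul_mul_mul_comm, he]⟩
  have hm : m = MulHom.id S := by
    refine h c m (MulHom.id S) fun x => ?_
    change e * (e * x) = e * x
    rw [← mul_assoc, he]
  have := congrArg (fun f : S →ₙ* S => f x) hm
  exact this

theorem result (S : Type*) [CommSemigroup S] [Nonempty S] (hS : IsPiRegular S) :
    EndCancellative S ↔ IsGrp S := by
  constructor
  · intro h
    have key : ∀ x : S, ∃ n y, pw x n * y * (pw x n * y) = pw x n * y := by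
      intro x
      obtain ⟨n, y, hy⟩ := hS x
      refine ⟨n, y, ?_⟩
      calc pw x n * y * (pw x n * y) = (pw x n * pw x n * y) * y := by
            rw [mul_mul_mul_comm, mul_assoc (pw x n * pw x n)]
        _ = pw x n * y := by rw [hy]
    obtain ⟨x0⟩ := ‹Nonempty S›
    obtain ⟨n0, y0, h0⟩ := key x0
    refine ⟨pw x0 n0 * y0, idem_is_one h _ h0, fun x => ?_⟩
    obtain ⟨n, y, hy⟩ := key x
    have e1 := idem_is_one h _ h0 (pw x n * y)
    have e2 := idem_is_one h _ hy (pw x0 n0 * y0)
    have e3 : pw x n * y = pw x0 n0 * y0 := by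
      rw [← e1, mul_comm, e2]
    cases n with
    | zero => exact ⟨y, by rw [← e3, mul_comm]; rfl⟩
    | succ n =>
      refine ⟨pw x n * y, ?_⟩
      rw [← e3]
      change pw x n * y * x = pw x n * x * y
      rw [mul_right_comm]
  · rintro ⟨e, he, hinv⟩ f g k hfg
    ext x
    obtain ⟨y, hy⟩ := hinv (f x)
    have h1 : y * (f x * g x) = y * (f x * k x) := by rw [hfg x]
    rw [← mul_assoc, ← mul_assoc, hy, he, he] at h1
    exact h1

end Pool.Agent.Results.MP_4b0123_al.PiRegular
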